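import Mathlib

/-!
# Entropy powers of `X + Y` and of `X + √c Z` (MP_ec2ab1_pr): definitions and row statements
-/

set_option autoImplicit false

open MeasureTheory ProbabilityTheory
open scoped NNReal ENNReal

namespace Pool.Agent.EGR

/-- differential entropy of a law on the line (used for laws with a density) -/
noncomputable def ent (ν : Measure ℝ) : ℝ :=
  -∫ x : ℝ, (ν.rnDeriv volume x).toReal * Real.log ((ν.rnDeriv volume x).toReal)

/-- `f log f` is integrable, `f` the density of `ν` -/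
def EntInt (ν : Measure ℝ) : Prop :=
  Integrable (fun x : ℝ => (ν.rnDeriv volume x).toReal *
    Real.log ((ν.rnDeriv volume x).toReal)) volume

/-- entropy power -/
noncomputable def epow (ν : Measure ℝ) : ℝ :=
  Real.exp (2 * ent ν) / (2 * Real.pi * Real.exp 1)

/-- law of the sum of two independent variables -/
noncomputable def sm (μ ν : Measure ℝ) : Measure ℝ :=
  (μ.prod ν).map (fun p : ℝ × ℝ => p.1 + p.2)

/-- the density of `ν * N(0, v)` -/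
noncomputable def pc (ν : Measure ℝ) (v : ℝ≥0) (x : ℝ) : ℝ :=
  ∫ y, gaussianPDFReal 0 v (x - y) ∂ν

/-- ROW DEN -/
def DenStmt : Prop := ∀ (ν : Measure ℝ) (v : ℝ≥0), IsProbabilityMeasure ν → v ≠ 0 →
  Continuous (pc ν v) ∧ (∀ x, 0 < pc ν v x) ∧
  (∀ x, pc ν v x ≤ (Real.sqrt (2 * Real.pi * v))⁻¹) ∧
  sm ν (gaussianReal 0 v) = volume.withDensity (fun x => ENNReal.ofReal (pc ν v x)) ∧
  ∫⁻ x, ENNReal.ofReal (pc ν v x) = 1

/-- ROW DEN2 -/
def Den2Stmt : Prop := ∀ (ν : Measure ℝ) (v : ℝ≥0), IsProbabilityMeasure ν → v ≠ 0 →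
  MemLp (fun x : ℝ => x) 2 ν →
  (∃ C : ℝ, ∀ x, |Real.log (pc ν v x)| ≤ C * (1 + x ^ 2)) ∧
  MemLp (fun x : ℝ => x) 2 (sm ν (gaussianReal 0 v)) ∧
  EntInt (sm ν (gaussianReal 0 v)) ∧
  Integrable (fun x => Real.log (pc ν v x)) (sm ν (gaussianReal 0 v)) ∧
  ent (sm ν (gaussianReal 0 v)) = -∫ x, Real.log (pc ν v x) ∂(sm ν (gaussianReal 0 v))

/-- ROW JEN: if `E exp L ≤ 1` then `E L ≤ 0` -/
def JenStmt : Prop := ∀ {Ω : Type} [MeasurableSpace Ω] (P : Measure Ω) (L : Ω → ℝ),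
  IsProbabilityMeasure P → Integrable L P → ∫⁻ w, ENNReal.ofReal (Real.exp (L w)) ∂P ≤ 1 →
  ∫ w, L w ∂P ≤ 0

/-- ROW SUB: submodularity, `h(X+Y+G) + h(G) ≤ h(X+G) + h(Y+G)` -/
def SubStmt : Prop := ∀ (μ ν : Measure ℝ) (v : ℝ≥0), IsProbabilityMeasure μ →
  IsProbabilityMeasure ν → v ≠ 0 → MemLp (fun x : ℝ => x) 2 μ → MemLp (fun x : ℝ => x) 2 ν →
  ent (sm (sm μ ν) (gaussianReal 0 v)) + Real.log (2 * Real.pi * Real.exp 1 * v) / 2 ≤
    ent (sm μ (gaussianReal 0 v)) + ent (sm ν (gaussianReal 0 v))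

/-- ROW MON: adding Gaussian noise does not decrease entropy -/
def MonStmt : Prop := ∀ (ν : Measure ℝ) (v : ℝ≥0), IsProbabilityMeasure ν → v ≠ 0 →
  MemLp (fun x : ℝ => x) 2 ν → ν ≪ volume → EntInt ν →
  ent ν ≤ ent (sm ν (gaussianReal 0 v))

/-- ROW TRA: the increasing map from the standard normal law to a smooth law -/
def TraStmt : Prop := ∀ p : ℝ → ℝ, Continuous p → (∀ x, 0 < p x) →
  (∫⁻ x, ENNReal.ofReal (p x) = 1) →
  ∃ T T' : ℝ → ℝ, (∀ x, HasDerivAt T (T' x) x) ∧ (∀ x, 0 < T' x) ∧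
    (∀ x, p (T x) * T' x = gaussianPDFReal 0 1 x) ∧
    (gaussianReal 0 1).map T = volume.withDensity (fun x => ENNReal.ofReal (p x))

/-- ROW ROT -/
def RotStmt : Prop := ∀ a d : ℝ, a ^ 2 + d ^ 2 = 1 →
  ((gaussianReal 0 1).prod (gaussianReal 0 1)).map
      (fun q : ℝ × ℝ => (a * q.1 - d * q.2, d * q.1 + a * q.2)) =
    (gaussianReal 0 1).prod (gaussianReal 0 1)

/-- ROW CV: change of variables along an increasing map with a derivative -/
def CvStmt : Prop := ∀ (q T T' : ℝ → ℝ) (a d b k : ℝ), Measurable q → (∀ x, 0 ≤ q x) →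
  (∫⁻ x, ENNReal.ofReal (q x) ≤ 1) → (∀ x, HasDerivAt T (T' x) x) → (∀ x, 0 < T' x) →
  0 < a → 0 < d → 0 < b →
  ∫⁻ x, ENNReal.ofReal (q (T (a * x - d * k) + b * (d * x + a * k)) *
    (a * T' (a * x - d * k) + b * d)) ≤ 1

/-- ROW EPS: the entropy power inequality in linearised form, smooth summand -/
def EpsStmt : Prop := ∀ (ν : Measure ℝ) (e b : ℝ≥0) (l : ℝ), IsProbabilityMeasure ν →
  e ≠ 0 → b ≠ 0 → MemLp (fun x : ℝ => x) 2 ν → 0 < l → l < 1 →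
  l * ent (sm ν (gaussianReal 0 e)) + (1 - l) * (Real.log (2 * Real.pi * Real.exp 1 * b) / 2) -
      (l * Real.log l + (1 - l) * Real.log (1 - l)) / 2 ≤
    ent (sm ν (gaussianReal 0 (e + b)))

/-- ROW OPT: the entropy power inequality with one Gaussian summand -/
def EpiStmt : Prop := ∀ (ν : Measure ℝ) (c : ℝ≥0), IsProbabilityMeasure ν → c ≠ 0 →
  MemLp (fun x : ℝ => x) 2 ν → ν ≪ volume → EntInt ν →
  epow ν + c ≤ epow (sm ν (gaussianReal 0 c))

/-- ROW FIN -/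
def FinStmt : Prop := ∀ (μ ν : Measure ℝ), IsProbabilityMeasure μ → IsProbabilityMeasure ν →
  MemLp (fun x : ℝ => x) 2 μ → MemLp (fun x : ℝ => x) 2 ν → sm μ ν ≪ volume →
  EntInt (sm μ ν) → ∀ c : ℝ≥0, c ≠ 0 →
  epow (sm μ ν) ≤ epow (sm μ (gaussianReal 0 c)) * epow (sm ν (gaussianReal 0 c)) / c - c

end Pool.Agent.EGR
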